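import Pool.Agent.W602.GT.KDefs

/-!
The Kodaira dimension does not change if the field of constants is replaced by an isomorphic one.
-/

set_option autoImplicit false
set_option linter.overlappingInstances false
set_option linter.unusedSectionVars false

open FF

namespace Pool.Agent.J4.H18.IT

open Pool.Agent.W602.GT (Divisorial RegAt IsPluri DerReg DerLog LogAt KodGe LogSec)

variable {k' k K : Type} [Field k'] [Field k] [Field K] [Algebra k' k] [Algebra k K] [Algebra k' K]
  [IsScalarTower k' k K]

/-- the place, over the isomorphic field of constants -/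
def plB (hs : Function.Surjective (algebraMap k' k)) (P : Place k' K) : Place k K where
  ord := P.ord
  ord_zero := P.ord_zero
  ord_mul := P.ord_mul
  ord_add := P.ord_add
  ord_const := fun {c} hc => by
    obtain ⟨c', rfl⟩ := hs c
    rw [← IsScalarTower.algebraMap_apply k' k K]
    exact P.ord_const (c := c') (by
      rintro rfl
      exact hc (map_zero _))
  surj := P.surj

/-- the derivation, over the isomorphic field of constants -/
def deB (hs : Function.Surjective (algebraMap k' k)) (D : Derivation k' K K) :
    Derivation k K K :=
  Derivation.mk'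
    { toFun := D
      map_add' := map_add D
      map_smul' := fun c x => by
        obtain ⟨c', rfl⟩ := hs c
        rw [Algebra.smul_def, ← IsScalarTower.algebraMap_apply k' k K, ← Algebra.smul_def,
          Derivation.map_smul, Algebra.smul_def, IsScalarTower.algebraMap_apply k' k K,
          ← Algebra.smul_def]
        rfl } (fun a b => D.leibniz a b)

theorem deB_apply (hs : Function.Surjective (algebraMap k' k)) (D : Derivation k' K K) (z : K) :
    deB (k := k) hs D z = D z := rfl

theorem divB (hs : Function.Surjective (algebraMap k' k)) {w : ℕ} {P : Place k' K}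
    (h : Divisorial w P) : Divisorial w (plB (k := k) hs P) := by
  obtain ⟨u, hu⟩ := h
  refine ⟨u, fun F hF => ?_⟩
  obtain ⟨F', rfl⟩ := MvPolynomial.map_surjective (algebraMap k' k) hs F
  have h0 : F' ≠ 0 := by
    rintro rfl
    exact hF (map_zero _)
  have h1 : MvPolynomial.aeval u (MvPolynomial.map (algebraMap k' k) F') =
      MvPolynomial.aeval u F' := MvPolynomial.aeval_map_algebraMap k u F'
  rw [h1]
  exact hu F' h0

/-- **Change of the field of constants.** -/
theorem kodGe_base (hs : Function.Surjective (algebraMap k' k)) {w j : ℕ}
    (h : KodGe k K w (fun _ => False) j) : KodGe k' K w (fun _ => False) j := by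
  obtain ⟨N, hN, ω, hω, D, hD, hind⟩ := h
  have hDD : (fun i => deB (k := k) hs ((D i).restrictScalars k')) = D := by
    funext i
    ext z
    rfl
  refine ⟨N, hN, fun l D' => ω l fun i => deB hs (D' i), fun l => ⟨?_, ?_, ?_⟩,
    fun i => (D i).restrictScalars k', ?_, ?_⟩
  · intro A D'
    have h1 : (fun i => deB (k := k) hs (∑ j, A i j • D' j)) =
        fun i => ∑ j, A i j • deB hs (D' j) := by
      funext i
      ext z
      rw [deB_apply]
      have h2 : (∑ j, A i j • D' j) z = ∑ j, A i j * D' j z :=
        congrFun (map_sum Derivation.coeFnAddMonoidHom (fun j => A i j • D' j) Finset.univ |>.trans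
          rfl) z |>.trans (Finset.sum_apply _ _ _)
      have h3 : (∑ j, A i j • deB (k := k) hs (D' j)) z = ∑ j, A i j * deB (k := k) hs (D' j) z :=
        congrFun (map_sum Derivation.coeFnAddMonoidHom (fun j => A i j • deB (k := k) hs (D' j))
          Finset.univ |>.trans rfl) z |>.trans (Finset.sum_apply _ _ _)
      rw [h2, h3]
      rfl
    change ω l (fun i => deB hs (∑ j, A i j • D' j)) = _
    rw [h1]
    exact (hω l).1 A _
  · intro P hP D' hD'
    exact (hω l).2.1 (plB hs P) (divB hs hP) _ fun i z => hD' i z
  · intro P hP _ D' hD'
    exact (hω l).2.2 (plB hs P) (divB hs hP) id _ fun i z hz => hD' i z hz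
  · change ω 0 (fun i => deB (k := k) hs ((D i).restrictScalars k')) ≠ 0
    rw [hDD]
    exact hD
  · have h1 : AlgebraicIndependent k' (fun i : Fin j => ω i.succ D / ω 0 D) :=
      hind.restrictScalars (algebraMap k' k).injective
    change AlgebraicIndependent k' (fun i : Fin j =>
      ω i.succ (fun i => deB (k := k) hs ((D i).restrictScalars k')) /
      ω 0 (fun i => deB (k := k) hs ((D i).restrictScalars k')))
    rw [hDD]
    exact h1

end Pool.Agent.J4.H18.IT
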