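import Mathlib

/-!
Algebraically closed fields of finite transcendence degree over `ℂ` are isomorphic to `ℂ`.
-/

set_option autoImplicit false

open Cardinal

namespace Pool.Agent.J4.H18.IT

/-- An algebraically closed field of finite transcendence degree over `ℂ` is isomorphic to `ℂ`
(not over `ℂ`). -/
theorem exists_iso (k : Type) [Field k] [Algebra ℂ k] [IsAlgClosed k] {b : ℕ}
    (hb : Algebra.trdeg ℂ k = b) : Nonempty (ℂ ≃+* k) := by
  have hch : CharZero k := charZero_of_injective_algebraMap (algebraMap ℂ k).injective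
  obtain ⟨s, hs⟩ := exists_isTranscendenceBasis ℂ k
  have h1 := IsAlgClosed.cardinal_le_max_transcendence_basis' (fun i : s => (i : k)) hs
  have h2 : #s = b := by rw [hs.cardinalMk_eq_trdeg, hb]
  have h3 : #k ≤ #ℂ := by
    refine h1.trans ?_
    rw [h2, mk_complex]
    refine max_le (max_le le_rfl ?_) aleph0_le_continuum
    exact (natCast_lt_aleph0 (n := b)).le.trans aleph0_le_continuum
  have h4 : #ℂ ≤ #k := mk_le_of_injective (algebraMap ℂ k).injective
  have h5 : ℵ₀ < #ℂ := by
    rw [mk_complex]
    exact aleph0_lt_continuum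
  exact IsAlgClosed.ringEquiv_of_equiv_of_charZero h5 (Cardinal.eq.1 (le_antisymm h4 h3))

end Pool.Agent.J4.H18.IT
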