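import Pool.Agent.J4.H18.IT.Fib
import Pool.Agent.J4.H18.IT.Base
import Pool.Agent.J4.H18.IT.Iso

/-!
Maps from curves of genus at most one to a variety over a field which is isomorphic to `ℂ`.
-/

set_option autoImplicit false
set_option linter.overlappingInstances false
set_option linter.unusedSectionVars false
set_option linter.unusedVariables false
set_option maxHeartbeats 4000000
set_option synthInstance.maxHeartbeats 400000

open Polynomial FF IntermediateField Module

namespace Pool.Agent.J4.H18.IT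

open Pool.Agent.N145.SX (GLO)
open Pool.Agent.W602.GT (Divisorial RegAt IsPluri DerReg KodGe LogSec)

variable {k E Λ F : Type} [Field k] [Field E] [Field Λ] [Field F] [Algebra k E] [Algebra k Λ]
    [Algebra k F] [Algebra Λ F] [Algebra E F] [IsScalarTower k Λ F] [IsScalarTower k E F]
    [Algebra.EssFiniteType k E] [IsAlgClosed Λ] [IsFF Λ F] {m N : ℕ}

theorem not_kod_base (e : ℂ ≃+* k) (hE : Algebra.trdeg k E = m) (hΛ : Algebra.trdeg k Λ = N)
    (hmv : ∃ z : E, ∀ c : Λ, algebraMap Λ F c ≠ algebraMap E F z) :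
    (∀ t : F, Λ⟮t⟯ = ⊤ → ∀ j, ¬ KodGe k E m (fun _ => False) j) ∧
    (GLO Λ F → ¬ KodGe k E m (fun _ => False) m) := by
  let a0 : Algebra ℂ k := (e : ℂ →+* k).toAlgebra
  let a1 : Algebra ℂ E := ((algebraMap k E).comp (e : ℂ →+* k)).toAlgebra
  let a2 : Algebra ℂ Λ := ((algebraMap k Λ).comp (e : ℂ →+* k)).toAlgebra
  let a3 : Algebra ℂ F := ((algebraMap k F).comp (e : ℂ →+* k)).toAlgebra
  have t1 : IsScalarTower ℂ k E := IsScalarTower.of_algebraMap_eq fun c => rfl
  have t2 : IsScalarTower ℂ k Λ := IsScalarTower.of_algebraMap_eq fun c => rfl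
  have t3 : IsScalarTower ℂ Λ F := IsScalarTower.of_algebraMap_eq fun c =>
    IsScalarTower.algebraMap_apply k Λ F (e c)
  have t4 : IsScalarTower ℂ E F := IsScalarTower.of_algebraMap_eq fun c =>
    IsScalarTower.algebraMap_apply k E F (e c)
  have hs : Function.Surjective (algebraMap ℂ k) := e.surjective
  have halg : Algebra.IsAlgebraic ℂ k := ⟨fun x => by
    obtain ⟨c, rfl⟩ := hs x
    exact isAlgebraic_algebraMap c⟩
  have hfin : Module.Finite ℂ k := Module.Finite.of_surjective (Algebra.linearMap ℂ k) hs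
  have hess : Algebra.EssFiniteType ℂ E := Algebra.EssFiniteType.comp ℂ k E
  have h0 : Algebra.trdeg ℂ k = 0 := trdeg_eq_zero
  have hE' : Algebra.trdeg ℂ E = m := by
    rw [← trdeg_add_eq ℂ k (A := E), h0, zero_add, hE]
  have hΛ' : Algebra.trdeg ℂ Λ = N := by
    rw [← trdeg_add_eq ℂ k (A := Λ), h0, zero_add, hΛ]
  refine ⟨fun t ht j h => ?_, fun hglo h => ?_⟩
  · exact not_kod_of_rational hE' hΛ' hmv ht (kodGe_base hs h)
  · exact not_gt_of_curves hE' hΛ' hmv hglo (kodGe_base hs h)

end Pool.Agent.J4.H18.IT
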