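import Mathlib

/-!
The geometric generic fibre of a fibration, and curves which cover the total space and are
contained in the fibres.
-/

set_option autoImplicit false
set_option linter.overlappingInstances false
set_option linter.unusedSectionVars false

open IntermediateField

namespace Pool.Agent.J4.H18.IT

/-- The algebraic closure of the function field `B` of the base, in an algebraic closure of the
function field `L` of the total space. -/
abbrev Const {L : Type} [Field L] [Algebra ℂ L] (B : IntermediateField ℂ L) : Type :=
  algebraicClosure B (AlgebraicClosure L)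

/-- The function field of the geometric generic fibre of the map from the variety with the function
field `L` to the variety with the function field `B`: the compositum of `L` and the algebraic closure
of `B`. -/
abbrev GeometricFibre {L : Type} [Field L] [Algebra ℂ L] (B : IntermediateField ℂ L) : Type :=
  IntermediateField.adjoin (algebraicClosure B (AlgebraicClosure L))
    (Set.range (algebraMap L (AlgebraicClosure L)))

/-- a function which takes its values in a subfield -/
theorem exists_hom {R A C : Type*} [Field R] [Field A] [Field C] (φ : R →+* C) (ψ : A →+* C)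
    (h : ∀ r, ∃ a, ψ a = φ r) : ∃ g : R →+* A, ∀ r, ψ (g r) = φ r := by
  choose g hg using h
  exact ⟨{ toFun := g
           map_one' := ψ.injective (by rw [hg, map_one, map_one])
           map_mul' := fun a b => ψ.injective (by rw [hg, map_mul, map_mul, hg, hg])
           map_zero' := ψ.injective (by rw [hg, map_zero, map_zero])
           map_add' := fun a b => ψ.injective (by rw [hg, map_add, map_add, hg, hg]) }, hg⟩

/-- an element which is algebraic over a subfield of an algebraically closed field -/
theorem mem_of_algebraic {R A Λ F : Type*} [Field R] [Field A] [Field Λ] [Field F] [Algebra R A]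
    [Algebra Λ F] [IsAlgClosed Λ] (ψ : A →+* F) (g : R →+* Λ)
    (hg : ∀ r, algebraMap Λ F (g r) = ψ (algebraMap R A r)) {a : A} (ha : IsAlgebraic R a) :
    ∃ c : Λ, algebraMap Λ F c = ψ a := by
  have h2 : IsIntegral Λ (ψ a) := by
    obtain ⟨p, hp, hpc⟩ := ha.isIntegral
    refine ⟨p.map g, hp.map g, ?_⟩
    have h3 : ψ (Polynomial.eval₂ (algebraMap R A) a p) = 0 := by rw [hpc, map_zero]
    have h4 := Polynomial.hom_eval₂ p (algebraMap R A) ψ a
    rw [Polynomial.eval₂_map, ← h3]
    refine Eq.trans ?_ h4.symm
    congr 1
    ext z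
    exact hg z
  have h6 := IsAlgClosed.degree_eq_one_of_irreducible Λ (minpoly.irreducible h2)
  exact minpoly.mem_range_of_degree_eq_one Λ _ h6

/-- A subfield of a curve which has a transcendence basis of constants consists of constants. -/
theorem const_of_basis {E Λ F : Type} [Field E] [Field Λ] [Field F] [Algebra ℂ E] [Algebra ℂ Λ]
    [Algebra ℂ F] [Algebra Λ F] [Algebra E F] [IsScalarTower ℂ Λ F] [IsScalarTower ℂ E F]
    [IsAlgClosed Λ] {m : ℕ} (hE : Algebra.trdeg ℂ E = m) {y : Fin m → E}
    (hy : AlgebraicIndependent ℂ y) (h : ∀ j, ∃ c : Λ, algebraMap Λ F c = algebraMap E F (y j))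
    (z : E) : ∃ c : Λ, algebraMap Λ F c = algebraMap E F z := by
  have hb : IsTranscendenceBasis ℂ y := by
    refine hy.isTranscendenceBasis_of_lift_trdeg_le_of_finite ?_
    rw [hE]
    simp
  have halg : Algebra.IsAlgebraic (IntermediateField.adjoin ℂ (Set.range y)) E :=
    hb.isAlgebraic_field
  have h1 : ∀ a : IntermediateField.adjoin ℂ (Set.range y), ∃ c : Λ, algebraMap Λ F c =
      (algebraMap E F).comp (algebraMap (IntermediateField.adjoin ℂ (Set.range y)) E) a := by
    have h2 : IntermediateField.adjoin ℂ (Set.range y) ≤
        ((algebraMap Λ F).fieldRange.comap (algebraMap E F)).toIntermediateField (fun c =>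
          ⟨algebraMap ℂ Λ c, by rw [← IsScalarTower.algebraMap_apply,
            ← IsScalarTower.algebraMap_apply]⟩) := by
      rw [IntermediateField.adjoin_le_iff]
      rintro _ ⟨j, rfl⟩
      exact h j
    intro a
    exact h2 a.2
  obtain ⟨g, hg⟩ := exists_hom _ _ h1
  exact mem_of_algebraic (algebraMap E F) g hg (halg.isAlgebraic z)

variable {L Λ F : Type} [Field L] [Algebra ℂ L] [Field Λ] [Field F] [Algebra ℂ Λ] [Algebra ℂ F]
  [Algebra Λ F] [Algebra L F] [IsScalarTower ℂ Λ F] [IsScalarTower ℂ L F] [IsAlgClosed Λ]

/-- The curves of a family which covers the total space and whose curves are contained in the fibres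
cover the geometric generic fibre. -/
theorem exists_emb (B : IntermediateField ℂ L)
    (hB : ∀ z ∈ B, ∃ c : Λ, algebraMap Λ F c = algebraMap L F z) :
    ∃ (i : Const B →+* Λ) (j : GeometricFibre B →+* F),
      (∀ c : Const B, j (algebraMap (Const B) (GeometricFibre B) c) = algebraMap Λ F (i c)) ∧
      (∀ z : L, j ⟨algebraMap L (AlgebraicClosure L) z,
        IntermediateField.subset_adjoin _ _ ⟨z, rfl⟩⟩ = algebraMap L F z) ∧
      (∀ c : ℂ, i (algebraMap ℂ (Const B) c) = algebraMap ℂ Λ c) := by
  have hch : CharZero L := charZero_of_injective_algebraMap (algebraMap ℂ L).injective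
  obtain ⟨φ, hφ⟩ : ∃ φ : AlgebraicClosure L →ₐ[L] AlgebraicClosure F,
      φ = IsAlgClosed.lift := ⟨_, rfl⟩
  obtain ⟨g, hg⟩ := exists_hom ((algebraMap L F).comp (algebraMap B L)) (algebraMap Λ F)
    (fun z => hB z z.2)
  have hφL : ∀ z : L, φ (algebraMap L (AlgebraicClosure L) z) =
      algebraMap F (AlgebraicClosure F) (algebraMap L F z) := by
    intro z
    rw [AlgHom.commutes, ← IsScalarTower.algebraMap_apply]
  -- the constants
  have hconst : ∀ c : Const B, ∃ c' : Λ, ((algebraMap F (AlgebraicClosure F)).comp
      (algebraMap Λ F)) c' = (φ.toRingHom.comp (algebraMap (Const B) (AlgebraicClosure L))) c := by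
    intro c
    have h1 : IsAlgebraic B (c : AlgebraicClosure L) := mem_algebraicClosure_iff.1 c.2
    obtain ⟨c', hc'⟩ := mem_of_algebraic (Λ := Λ) (φ.toRingHom) g (fun z => by
      change algebraMap Λ (AlgebraicClosure F) (g z) =
        φ (algebraMap B (AlgebraicClosure L) z)
      have h5 : algebraMap B (AlgebraicClosure L) z =
          algebraMap L (AlgebraicClosure L) (z : L) := rfl
      rw [h5, hφL, IsScalarTower.algebraMap_apply Λ F (AlgebraicClosure F), hg]
      rfl) h1
    refine ⟨c', ?_⟩
    change algebraMap F (AlgebraicClosure F) (algebraMap Λ F c') = φ (c : AlgebraicClosure L)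
    rw [← IsScalarTower.algebraMap_apply]
    exact hc'
  obtain ⟨i, hi⟩ := exists_hom _ _ hconst
  -- the fibre
  have hfib : ∀ z : GeometricFibre B, ∃ f : F, (algebraMap F (AlgebraicClosure F)) f =
      (φ.toRingHom.comp (algebraMap (GeometricFibre B) (AlgebraicClosure L))) z := by
    have h1 : IntermediateField.adjoin (algebraicClosure B (AlgebraicClosure L))
        (Set.range (algebraMap L (AlgebraicClosure L))) ≤
        (((algebraMap F (AlgebraicClosure F)).fieldRange.comap φ.toRingHom).toIntermediateField
          (fun c => by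
            obtain ⟨c', hc'⟩ := hconst c
            exact ⟨algebraMap Λ F c', hc'⟩)) := by
      rw [IntermediateField.adjoin_le_iff]
      rintro _ ⟨z, rfl⟩
      exact ⟨algebraMap L F z, (hφL z).symm⟩
    intro z
    exact h1 z.2
  obtain ⟨j, hj⟩ := exists_hom _ _ hfib
  refine ⟨i, j, fun c => ?_, fun z => ?_, fun c => ?_⟩
  · apply (algebraMap F (AlgebraicClosure F)).injective
    rw [hj]
    exact (hi c).symm
  · apply (algebraMap F (AlgebraicClosure F)).injective
    rw [hj]
    exact hφL z
  · apply (algebraMap Λ F).injective
    apply (algebraMap F (AlgebraicClosure F)).injective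
    have h1 := hi (algebraMap ℂ (Const B) c)
    have h2 : (φ.toRingHom.comp (algebraMap (Const B) (AlgebraicClosure L)))
        (algebraMap ℂ (Const B) c) = φ (algebraMap L (AlgebraicClosure L) (algebraMap ℂ L c)) := rfl
    rw [h2, hφL] at h1
    refine h1.trans ?_
    rw [← IsScalarTower.algebraMap_apply ℂ L F, ← IsScalarTower.algebraMap_apply ℂ Λ F]

end Pool.Agent.J4.H18.IT
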