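import Mathlib

/-!
Linear algebra: a nonvanishing minor with a prescribed row.
-/

set_option autoImplicit false

namespace Pool.Agent.J4.H18.IT

/-- A matrix with independent columns and with a nonzero row `0` has an invertible maximal
submatrix which contains the row `0`. -/
theorem exists_rows {F : Type*} [Field F] {N m : ℕ} (A : Matrix (Fin (N + 1)) (Fin m) F)
    (hcol : ∀ c : Fin m → F, (∀ k, ∑ j, A k j * c j = 0) → c = 0) (h0 : A 0 ≠ 0) :
    ∃ (r : Fin m → Fin (N + 1)) (i0 : Fin m), r i0 = 0 ∧
      (Matrix.of fun k j => A (r k) j : Matrix (Fin m) (Fin m) F).det ≠ 0 := by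
  classical
  have hs : LinearIndepOn F (fun i => A i) ({0} : Set (Fin (N + 1))) := by
    rw [linearIndepOn_singleton_iff]
    exact h0
  obtain ⟨u, -, hu0, hspan, hli⟩ := exists_linearIndepOn_extension hs (Set.subset_univ _)
  have htop : Submodule.span F (Set.range fun i => A i) = ⊤ := by
    by_contra hne
    obtain ⟨f, hf0, hf⟩ := Submodule.exists_le_ker_of_lt_top _ (lt_top_iff_ne_top.2 hne)
    apply hf0
    have hfv : ∀ v : Fin m → F, f v = ∑ j, v j * f (Pi.single j 1) := by
      intro v
      conv_lhs => rw [pi_eq_sum_univ' v, map_sum]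
      refine Finset.sum_congr rfl fun j _ => ?_
      rw [map_smul, smul_eq_mul]
    have hc := hcol (fun j => f (Pi.single j 1)) (fun k => by
      rw [← hfv (A k)]
      exact hf (Submodule.subset_span ⟨k, rfl⟩))
    refine LinearMap.ext fun v => ?_
    rw [hfv]
    have h1 : ∀ j, f (Pi.single j 1) = 0 := fun j => congrFun hc j
    simp [h1]
  have htop2 : ⊤ ≤ Submodule.span F (Set.range fun i : u => A i) := by
    rw [← htop, Submodule.span_le]
    rintro _ ⟨i, rfl⟩
    have h1 := hspan ⟨i, Set.mem_univ _, rfl⟩
    rwa [← Set.image_eq_range (fun i => A i) u]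
  let b : Module.Basis u F (Fin m → F) := Module.Basis.mk hli htop2
  have hcard : Fintype.card u = m := by
    have h1 := Module.finrank_eq_card_basis b
    rw [Module.finrank_fin_fun] at h1
    exact h1.symm
  let e : Fin m ≃ u := (Fintype.equivFinOfCardEq hcard).symm
  refine ⟨fun k => (e k : Fin (N + 1)), e.symm ⟨0, hu0 rfl⟩, by simp, ?_⟩
  have h2 : LinearIndependent F fun k : Fin m => A (e k : Fin (N + 1)) :=
    hli.comp e e.injective
  have h3 : LinearIndependent F (Matrix.of fun k j => A (e k : Fin (N + 1)) j :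
    Matrix (Fin m) (Fin m) F).row := h2
  rw [Matrix.linearIndependent_rows_iff_isUnit, Matrix.isUnit_iff_isUnit_det] at h3
  exact h3.ne_zero

end Pool.Agent.J4.H18.IT
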