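import Pool.Agent.N145.SX.Rev
import Pool.Agent.J4.H18.IT.Lin
import Pool.Agent.J4.H18.IT.Emb

/-!
Maps from curves of genus at most one, over any field, to a variety. The proof is that of
`Pool.Agent.N145.SX.not_gt_of_cover`, which is the case of a dominant family.
-/

set_option autoImplicit false
set_option linter.overlappingInstances false
set_option linter.unusedSectionVars false
set_option linter.unusedVariables false
set_option maxHeartbeats 4000000
set_option synthInstance.maxHeartbeats 400000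

open Polynomial FF IntermediateField Module

namespace Pool.Agent.J4.H18.IT

open Pool.Agent.W603.LV Pool.Agent.W619.PQ Pool.Agent.N145.PC Pool.Agent.N145.PL
open Pool.Agent.N145.SX
open Pool.Agent.W602.GT (Divisorial RegAt IsPluri DerReg KodGe LogSec)

open scoped Classical

section

variable {E Λ F : Type} [Field E] [Field Λ] [Field F] [Algebra ℂ E] [Algebra ℂ Λ]
    [Algebra ℂ F] [Algebra Λ F] [Algebra E F] [IsScalarTower ℂ Λ F] [IsScalarTower ℂ E F]
    [Algebra.EssFiniteType ℂ E] [IsAlgClosed Λ] [IsFF Λ F] {m N : ℕ}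

theorem const_of_der {Λ F : Type} [Field Λ] [Field F] [Algebra Λ F] [CharZero Λ] [IsAlgClosed Λ]
    [IsFF Λ F] {D : Derivation Λ F F} (hD : D ≠ 0) {z : F} (hz : D z = 0) :
    ∃ c : Λ, algebraMap Λ F c = z := by
  by_contra hcon
  have ht : Transcendental Λ z := by
    intro halg
    exact hcon (mem_of_algebraic (RingHom.id F) (RingHom.id Λ) (fun _ => rfl) halg)
  obtain ⟨D', hD'⟩ := exists_D (k := Λ) ht
  obtain ⟨u, hu⟩ := der_smul (D' := D') hD
  rw [hu, Derivation.smul_apply, hz, smul_zero] at hD'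
  exact zero_ne_one hD'

/-- The frame: one of the vector fields is tangent to the curve, the others preserve the field of
constants. -/
theorem exists_frame (hE : Algebra.trdeg ℂ E = m) (hΛ : Algebra.trdeg ℂ Λ = N)
    (hmv : ∃ z : E, ∀ c : Λ, algebraMap Λ F c ≠ algebraMap E F z)
    {x : Fin m → E} (hx : IsTranscendenceBasis ℂ x) :
    ∃ (Ds : Derivation Λ F F) (s : F) (δ : Fin m → Derivation ℂ F F) (i0 : Fin m),
      Ds s = 1 ∧ Ds ≠ 0 ∧ (∀ z, δ i0 z = Ds z) ∧
      (∀ i (c : Λ), ∃ c' : Λ, δ i (algebraMap Λ F c) = algebraMap Λ F c') ∧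
      (Matrix.of fun i j => δ i (algebraMap E F (x j)) : Matrix (Fin m) (Fin m) F).det ≠ 0 := by
  have hch : CharZero Λ := charZero_of_injective_algebraMap (algebraMap ℂ Λ).injective
  obtain ⟨s, hs⟩ := IsFF.exists_transcendental (k := Λ) (K := F)
  obtain ⟨Ds, hDs⟩ := exists_D (k := Λ) hs
  have hDs0 : Ds ≠ 0 := by
    rintro rfl
    simp at hDs
  obtain ⟨u, Eu, hu, hEu⟩ := Pool.Agent.Y944.NT.exists_crd (k := ℂ) (K := Λ) hΛ
  obtain ⟨T, hTd⟩ : ∃ T : Fin (N + 1) → F, T = Fin.cons s (fun i => algebraMap Λ F (u i)) :=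
    ⟨_, rfl⟩
  have hT : IsTranscendenceBasis ℂ T := by
    rw [hTd]
    exact Pool.Agent.N438.SX.basis_cons hu hs
  choose δ hδ using fun i : Fin (N + 1) =>
    Pool.Agent.W602.GT.exists_der T hT fun j => if i = j then 1 else 0
  have ha : ∀ y, δ 0 y = Ds y := by
    have h1 : δ 0 = Ds.restrictScalars ℂ := Pool.Agent.Y888.NT.der_ext' T hT fun j => by
      rw [hδ]
      refine Fin.cases ?_ (fun j => ?_) j
      · rw [if_pos rfl, hTd, Fin.cons_zero]
        exact hDs.symm
      · rw [if_neg (Fin.succ_ne_zero j).symm, hTd, Fin.cons_succ]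
        exact (Derivation.map_algebraMap Ds (u j)).symm
    intro y
    rw [h1]
    rfl
  have hb : ∀ (k : Fin (N + 1)) (c : Λ), ∃ c' : Λ, δ k (algebraMap Λ F c) = algebraMap Λ F c' := by
    intro k
    refine Fin.cases (fun c => ⟨0, ?_⟩) (fun k c => ⟨Eu k c, ?_⟩) k
    · rw [ha, Derivation.map_algebraMap, map_zero]
    · have h1 : (δ k.succ).compAlgebraMap Λ = (Algebra.linearMap Λ F).compDer (Eu k) :=
        Pool.Agent.Y888.NT.der_ext' u hu fun j => by
          change δ k.succ (algebraMap Λ F (u j)) = algebraMap Λ F (Eu k (u j))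
          have h2 := hδ k.succ j.succ
          rw [hTd, Fin.cons_succ] at h2
          rw [h2, hEu]
          by_cases h : k = j
          · rw [if_pos h, if_pos (by rw [h]), map_one]
          · rw [if_neg h, if_neg (fun h' => h (Fin.succ_injective _ h')), map_zero]
      exact DFunLike.congr_fun h1 c
  -- the Jacobian matrix
  obtain ⟨mm, hmm⟩ : ∃ mm : Matrix (Fin (N + 1)) (Fin m) F,
    mm = Matrix.of fun k j => δ k (algebraMap E F (x j)) := ⟨_, rfl⟩
  have hφy : AlgebraicIndependent ℂ (fun j => algebraMap E F (x j)) :=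
    hx.1.map' (f := IsScalarTower.toAlgHom ℂ E F) (algebraMap E F).injective
  have hcol : ∀ c : Fin m → F, (∀ k, ∑ j, mm k j * c j = 0) → c = 0 := by
    intro c hc
    funext i
    obtain ⟨D, hD⟩ := Pool.Agent.Y944.NT.exists_der_indep hφy i
    have h1 := Pool.Agent.Y944.NT.der_expand hT hδ D
    have h2 : ∀ x, D x = ∑ k, D (T k) * δ k x := by
      intro x
      conv_lhs => rw [h1]
      have h3 : (∑ k, D (T k) • δ k) x = ∑ k, (D (T k) • δ k) x :=
        congrFun (map_sum Derivation.coeFnAddMonoidHom (fun k => D (T k) • δ k) Finset.univ |>.trans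
          rfl) x |>.trans (Finset.sum_apply _ _ _)
      rw [h3]
      rfl
    have h4 : ∑ j, c j * D (algebraMap E F (x j)) = 0 := by
      simp only [h2 (algebraMap E F (x _)), Finset.mul_sum]
      rw [Finset.sum_comm]
      refine Finset.sum_eq_zero fun k _ => ?_
      have h5 := hc k
      calc ∑ j, c j * (D (T k) * δ k (algebraMap E F (x j))) = D (T k) * ∑ j, mm k j * c j := by
            rw [Finset.mul_sum]
            exact Finset.sum_congr rfl fun j _ => by rw [hmm, Matrix.of_apply]; ring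
        _ = 0 := by rw [h5, mul_zero]
    simp only [hD, mul_ite, mul_one, mul_zero, Finset.sum_ite_eq, Finset.mem_univ, if_true] at h4
    exact h4
  have h0 : mm 0 ≠ 0 := by
    intro h0
    obtain ⟨z, hz⟩ := hmv
    obtain ⟨c, hc⟩ := const_of_basis (Λ := Λ) (F := F) hE hx.1 (fun j => by
      refine const_of_der hDs0 ?_
      rw [← ha]
      have h1 : mm 0 j = 0 := by rw [h0]; rfl
      rwa [hmm] at h1) z
    exact hz c hc
  obtain ⟨r, i0, hr, hdet⟩ := exists_rows mm hcol h0
  refine ⟨Ds, s, fun i => δ (r i), i0, hDs, hDs0, fun z => ?_, fun i => hb (r i), ?_⟩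
  · change δ (r i0) z = Ds z
    rw [hr, ha]
  · rw [hmm] at hdet
    exact hdet

/-- no regular pluricanonical differentials on the line -/
theorem eq_zero_of_rational {Λ F : Type} [Field Λ] [Field F] [Algebra Λ F] [CharZero Λ]
    [IsAlgClosed Λ] [IsFF Λ F] {t : F} (ht : Λ⟮t⟯ = ⊤) {D : Derivation Λ F F} (hD : D ≠ 0)
    {w : ℕ} (hw : 0 < w) {f : F} (hf : ∀ Q : Place Λ F, Ge Q (w * vo Q D) f) : f = 0 := by
  by_contra hf0
  obtain ⟨T, hT⟩ : ∃ T : Finset (Place Λ F), T = (vo_finite hD).toFinset ∪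
    (finite_support (k := Λ) f).toFinset := ⟨_, rfl⟩
  have h1 := canDeg_finset (k := Λ) hD T (fun P hP => by
    rw [hT, Finset.mem_union, Set.Finite.mem_toFinset]
    exact Or.inl hP)
  have h2 := sum_ord_finset (k := Λ) f T (fun P hP => by
    rw [hT, Finset.mem_union, Set.Finite.mem_toFinset, Set.Finite.mem_toFinset]
    exact Or.inr hP)
  rw [canDeg_rational ht] at h1
  have h3 : ∑ P ∈ T, (w : ℤ) * vo P D ≤ ∑ P ∈ T, P.ord f :=
    Finset.sum_le_sum fun P _ => (hf P).resolve_left hf0
  rw [← Finset.mul_sum, h1, h2] at h3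
  have h4 : (0 : ℤ) < w := by exact_mod_cast hw
  linarith

/-- the values of a form on any vector fields, in terms of the values on a frame -/
theorem val_frame {x : Fin m → E} (hx : IsTranscendenceBasis ℂ x)
    {D0 : Fin m → Derivation ℂ E E} (hdual : ∀ i j, D0 i (x j) = if i = j then 1 else 0)
    {w : ℕ} {ω : (Fin m → Derivation ℂ E E) → E} (hω : IsPluri w ω)
    (D : Fin m → Derivation ℂ E E) :
    ω D = (Matrix.of fun a b => D a (x b) : Matrix (Fin m) (Fin m) E).det ^ w * ω D0 := by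
  have h1 := hω (Matrix.of fun a b => D a (x b)) D0
  rw [← h1]
  congr 1
  funext a
  exact (Pool.Agent.W73.PG.PULL.expand x hx D0 hdual (D a)).symm

/-- **A family of rational curves** on a variety, which are not all points: the Kodaira dimension is
`-∞`. -/
theorem not_kod_of_rational (hE : Algebra.trdeg ℂ E = m) (hΛ : Algebra.trdeg ℂ Λ = N)
    (hmv : ∃ z : E, ∀ c : Λ, algebraMap Λ F c ≠ algebraMap E F z) {t : F} (ht : Λ⟮t⟯ = ⊤)
    {j : ℕ} : ¬ KodGe ℂ E m (fun _ => False) j := by
  rintro ⟨w, hw, ω, hω, D, hD, -⟩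
  have hch : CharZero Λ := charZero_of_injective_algebraMap (algebraMap ℂ Λ).injective
  obtain ⟨x, D0, hx, hdual⟩ := Pool.Agent.Y944.NT.exists_crd (k := ℂ) (K := E) hE
  obtain ⟨Ds, s, δ, i0, hDs, hDs0, ha, hb, hdet⟩ := exists_frame hE hΛ hmv hx
  have hcan : ∀ Q : Place Λ F, Ge Q (w * vo Q Ds)
      ((Matrix.of fun i j => δ i (algebraMap E F (x j)) : Matrix (Fin m) (Fin m) F).det ^ w *
        algebraMap E F (ω 0 D0)) := fun Q =>
    core_pluri hE hΛ hx hdual (hω 0).1 (fun P hP => (hω 0).2.2 P hP (fun h => h)) Ds hDs δ i0 ha hb Q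
  have h1 := eq_zero_of_rational ht hDs0 hw hcan
  have h2 : ω 0 D0 ≠ 0 := by
    intro h0
    rw [val_frame hx hdual (hω 0).1, h0, mul_zero] at hD
    exact hD rfl
  rcases mul_eq_zero.1 h1 with h3 | h3
  · exact hdet (pow_eq_zero_iff hw.ne' |>.1 h3)
  · exact h2 (by simpa using h3)

/-- **A family of curves of genus at most one** on a variety, which are not all points and need not
cover the variety in an `m - 1`-dimensional family: the variety is not of general type. -/
theorem not_gt_of_curves (hE : Algebra.trdeg ℂ E = m) (hΛ : Algebra.trdeg ℂ Λ = N)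
    (hmv : ∃ z : E, ∀ c : Λ, algebraMap Λ F c ≠ algebraMap E F z) (hglo : GLO Λ F) :
    ¬ KodGe ℂ E m (fun _ => False) m := by
  rintro ⟨w, hw, ω, hω, D, hD, hind⟩
  have hch : CharZero Λ := charZero_of_injective_algebraMap (algebraMap ℂ Λ).injective
  obtain ⟨x, D0, hx, hdual⟩ := Pool.Agent.Y944.NT.exists_crd (k := ℂ) (K := E) hE
  obtain ⟨Ds, s, δ, i0, hDs, hDs0, ha, hb, hdet⟩ := exists_frame hE hΛ hmv hx
  have hval : ∀ j, ω j D = (Matrix.of fun a b => D a (x b) : Matrix (Fin m) (Fin m) E).det ^ w *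
      ω j D0 := fun j => val_frame hx hdual (hω j).1 D
  obtain ⟨e, he⟩ : ∃ e, e = (Matrix.of fun a b => D a (x b) : Matrix (Fin m) (Fin m)
      E).det ^ w := ⟨_, rfl⟩
  simp only [← he] at hval
  have he0 : e ≠ 0 := by
    rintro rfl
    rw [hval, zero_mul] at hD
    exact hD rfl
  have hω0 : ω 0 D0 ≠ 0 := by
    intro h0
    rw [hval, h0, mul_zero] at hD
    exact hD rfl
  have hlog : ∀ j, ∀ P : Place ℂ E, Divisorial m P → RegAt P (ω j) :=
    fun j P hP => (hω j).2.2 P hP (fun h => h)
  have hcan : ∀ j, ∀ Q : Place Λ F, Ge Q (w * vo Q Ds)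
      ((Matrix.of fun i j => δ i (algebraMap E F (x j)) : Matrix (Fin m) (Fin m) F).det ^ w *
        algebraMap E F (ω j D0)) := by
    intro j Q
    exact core_pluri hE hΛ hx hdual (hω j).1 (hlog j) Ds hDs δ i0 ha hb Q
  have hrat : ∀ j, ∃ c : Λ, algebraMap Λ F c = algebraMap E F (ω j D / ω 0 D) := by
    intro j
    obtain ⟨a, b, hab, h1⟩ := pluri_of_glo hglo hDs0 hw (hcan j) (hcan 0)
    have h2 : algebraMap Λ F a * algebraMap E F (ω j D0) =
        algebraMap Λ F b * algebraMap E F (ω 0 D0) := by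
      apply mul_left_cancel₀ (pow_ne_zero w hdet)
      linear_combination h1
    have h0' : algebraMap E F (ω 0 D0) ≠ 0 := by simpa using hω0
    have ha0 : a ≠ 0 := by
      rintro rfl
      rw [map_zero, zero_mul] at h2
      rcases mul_eq_zero.1 h2.symm with h3 | h3
      · rcases hab with h4 | h4
        · exact h4 rfl
        · exact h4 (by simpa using h3)
      · exact h0' h3
    have ha1 : algebraMap Λ F a ≠ 0 := by simpa using ha0
    refine ⟨b / a, ?_⟩
    rw [hval, hval, mul_div_mul_left _ _ he0, map_div₀, map_div₀, div_eq_div_iff ha1 h0']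
    linear_combination -h2
  obtain ⟨z, hz⟩ := hmv
  obtain ⟨c, hc⟩ := const_of_basis (Λ := Λ) (F := F) hE hind (fun j => hrat j.succ) z
  exact hz c hc

end

end Pool.Agent.J4.H18.IT
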