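import Pool.Agent.J4.H18.IT.Emb
import Pool.Agent.Y174.V1

/-!
The function field of the geometric generic fibre.
-/

set_option autoImplicit false
set_option linter.overlappingInstances false
set_option linter.unusedSectionVars false

open IntermediateField Module

namespace Pool.Agent.J4.H18.IT

variable {L : Type} [Field L] [Algebra ℂ L]

/-- the function field of the total space in that of the geometric generic fibre -/
noncomputable def toGeo (B : IntermediateField ℂ L) : L →+* GeometricFibre B where
  toFun := fun z => ⟨algebraMap L (AlgebraicClosure L) z,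
          IntermediateField.subset_adjoin _ _ ⟨z, rfl⟩⟩
  map_one' := Subtype.ext (map_one _)
  map_mul' := fun a b => Subtype.ext (map_mul _ _ _)
  map_zero' := Subtype.ext (map_zero _)
  map_add' := fun a b => Subtype.ext (map_add _ _ _)

theorem const_algClosed (B : IntermediateField ℂ L) : IsAlgClosed (Const B) :=
  (algebraicClosure.isAlgClosure B (AlgebraicClosure L)).isAlgClosed

theorem const_trdeg (B : IntermediateField ℂ L) {b : ℕ} (hB : Algebra.trdeg ℂ B = b) :
    Algebra.trdeg ℂ (Const B) = b := by
  have hTL : IsScalarTower ℂ B (AlgebraicClosure L) :=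
    IsScalarTower.of_algebraMap_eq fun z => by
      rw [IsScalarTower.algebraMap_apply ℂ L (AlgebraicClosure L)]
      rfl
  have hCalg : Algebra.IsAlgebraic B (Const B) := inferInstance
  have h1 := trdeg_add_eq ℂ B (A := Const B)
  have h2 : Algebra.trdeg B (Const B) = 0 := trdeg_eq_zero
  rw [h2, add_zero, hB] at h1
  exact h1.symm

/-- dimension and finite generation of the geometric generic fibre -/
theorem geo_data [hess : Algebra.EssFiniteType ℂ L] (B : IntermediateField ℂ L) {f : ℕ}
    (hf : Algebra.trdeg B L = f) : Algebra.trdeg (Const B) (GeometricFibre B) = f ∧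
      Algebra.EssFiniteType (Const B) (GeometricFibre B) := by
  have hCalg : Algebra.IsAlgebraic B (Const B) := inferInstance
  let iLG : Algebra L (GeometricFibre B) := (toGeo B).toAlgebra
  have hLG : ∀ z : L, ((algebraMap L (GeometricFibre B) z : GeometricFibre B) :
      AlgebraicClosure L) = algebraMap L (AlgebraicClosure L) z := fun z => rfl
  have hTL : IsScalarTower ℂ B (AlgebraicClosure L) :=
    IsScalarTower.of_algebraMap_eq fun z => by
      rw [IsScalarTower.algebraMap_apply ℂ L (AlgebraicClosure L)]
      rfl
  have hTΛ : IsScalarTower ℂ (Const B) (AlgebraicClosure L) :=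
    IsScalarTower.of_algebraMap_eq fun z => by
      rw [IsScalarTower.algebraMap_apply ℂ B (AlgebraicClosure L)]
      rfl
  have hT1 : IsScalarTower B L (GeometricFibre B) :=
    IsScalarTower.of_algebraMap_eq fun z => Subtype.ext rfl
  have hT2 : IsScalarTower ℂ L (GeometricFibre B) := IsScalarTower.of_algebraMap_eq fun z => by
    apply Subtype.ext
    rw [hLG, ← IsScalarTower.algebraMap_apply ℂ L (AlgebraicClosure L)]
    rfl
  have hT4 : IsScalarTower B (Const B) (GeometricFibre B) :=
    IsScalarTower.of_algebraMap_eq fun z => Subtype.ext rfl
  have hT5 : IsScalarTower ℂ (Const B) (GeometricFibre B) := inferInstance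
  have hgenF : IntermediateField.adjoin (Const B)
      (Set.range (algebraMap L (GeometricFibre B))) = ⊤ := by
    have h1 : (IntermediateField.adjoin (Const B)
        (Set.range (algebraMap L (GeometricFibre B)))).map
          (IntermediateField.adjoin (algebraicClosure B (AlgebraicClosure L))
            (Set.range (algebraMap L (AlgebraicClosure L)))).val =
        (⊤ : IntermediateField (Const B) (GeometricFibre B)).map
          (IntermediateField.adjoin (algebraicClosure B (AlgebraicClosure L))
            (Set.range (algebraMap L (AlgebraicClosure L)))).val := by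
      rw [IntermediateField.adjoin_map, ← AlgHom.fieldRange_eq_map,
        IntermediateField.fieldRange_val]
      congr 1
      ext z
      simp only [Set.mem_image, Set.mem_range]
      constructor
      · rintro ⟨_, ⟨y, rfl⟩, rfl⟩
        exact ⟨y, rfl⟩
      · rintro ⟨y, rfl⟩
        exact ⟨_, ⟨y, rfl⟩, rfl⟩
    exact IntermediateField.map_injective _ h1
  exact ⟨Pool.Agent.Y174.trdeg_F (L := B) (K := L) hf hgenF,
    Pool.Agent.Y174.ess_F (k := ℂ) (K := L) hess hgenF⟩

end Pool.Agent.J4.H18.IT
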