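import Pool.Agent.W619.PQ.Defs

/-!
Uniruled varieties are covered by rational curves over an algebraically closed field.
-/

set_option autoImplicit false
set_option linter.overlappingInstances false
set_option linter.unusedSectionVars false

open Polynomial FF IntermediateField Module nonZeroDivisors

namespace Pool.Agent.J4.H18.IT

open Pool.Agent.W619.PQ (IsUniruled)

theorem isFF_ratFunc (Λ : Type) [Field Λ] : IsFF Λ (RatFunc Λ) := by
  refine IsFF.of_finite (f := (RatFunc.X : RatFunc Λ)) RatFunc.transcendental_X ?_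
  rw [RatFunc.adjoin_X]
  exact Module.Finite.of_surjective (Algebra.linearMap (⊤ : IntermediateField Λ (RatFunc Λ))
    (RatFunc Λ)) fun z => ⟨⟨z, trivial⟩, rfl⟩

/-- **Uniruled varieties are covered by rational curves.** -/
theorem rational_of_uniruled {L : Type} [Field L] [Algebra ℂ L] {n : ℕ}
    (h : IsUniruled ℂ L (n + 1)) :
    ∃ (Λ F : Type) (_ : Field Λ) (_ : Field F) (_ : Algebra ℂ Λ) (_ : Algebra ℂ F)
      (_ : Algebra Λ F) (_ : IsScalarTower ℂ Λ F) (_ : IsAlgClosed Λ) (_ : IsFF Λ F),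
      Algebra.trdeg ℂ Λ = n ∧ (∃ t : F, Λ⟮t⟯ = ⊤) ∧ Nonempty (L →ₐ[ℂ] F) := by
  obtain ⟨M, _, _, -, hM, ⟨φ⟩⟩ := h
  have hch : CharZero M := charZero_of_injective_algebraMap (algebraMap ℂ M).injective
  have hM' : Algebra.trdeg ℂ M = n := by
    have h1 : Algebra.trdeg ℂ M + 1 = (n : Cardinal) + 1 := by
      rw [hM]
      push_cast
      rfl
    exact Cardinal.eq_of_add_eq_add_right h1 Cardinal.one_lt_aleph0
  have hinj : M[X]⁰ ≤ (AlgebraicClosure M)[X]⁰.comap
      (Polynomial.mapAlgHom (IsScalarTower.toAlgHom ℂ M (AlgebraicClosure M))) := by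
    intro p hp
    rw [Submonoid.mem_comap, mem_nonZeroDivisors_iff_ne_zero]
    have h1 := mem_nonZeroDivisors_iff_ne_zero.1 hp
    intro h2
    apply h1
    have h3 : Polynomial.map (algebraMap M (AlgebraicClosure M)) p = 0 := h2
    rwa [Polynomial.map_eq_zero] at h3
  refine ⟨AlgebraicClosure M, RatFunc (AlgebraicClosure M), inferInstance, inferInstance,
    inferInstance, inferInstance, inferInstance, inferInstance, inferInstance,
    isFF_ratFunc (AlgebraicClosure M), ?_, ⟨RatFunc.X, RatFunc.adjoin_X⟩,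
    ⟨(RatFunc.mapAlgHom _ hinj).comp φ⟩⟩
  have h1 := trdeg_add_eq ℂ M (A := AlgebraicClosure M)
  have h2 : Algebra.trdeg M (AlgebraicClosure M) = 0 := trdeg_eq_zero
  rw [h2, add_zero, hM'] at h1
  exact h1.symm

end Pool.Agent.J4.H18.IT
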