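import Pool.Agent.J4.H18.IT.Chg
import Pool.Agent.J4.H18.IT.Unir
import Pool.Agent.J4.H18.IT.Geo
import Pool.Agent.N145.SX.Cover
import Pool.Agent.N999.SX.FG

/-!
Iitaka's inequality for all fibrations of a variety `W` whose Kodaira dimension is at least
`dim W - 1`, or which is uniruled, and which is of general type or covered by curves of genus at most
one.
-/

set_option autoImplicit false
set_option linter.overlappingInstances false
set_option linter.unusedSectionVars false
set_option linter.unusedVariables false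
set_option maxHeartbeats 4000000
set_option synthInstance.maxHeartbeats 400000

open Polynomial FF IntermediateField Module

namespace Pool.Agent.J4.H18.IT

open Pool.Agent.N145.SX (GLO Cov1)
open Pool.Agent.W619.PQ (IsUniruled)
open Pool.Agent.W602.GT (Divisorial RegAt IsPluri DerReg KodGe LogSec)

theorem kodGe_mono {k K : Type} [Field k] [Field K] [Algebra k K] {w : ℕ}
    {Bd : Place k K → Prop} {h h' : ℕ} (hle : h' ≤ h) (hk : KodGe k K w Bd h) :
    KodGe k K w Bd h' := by
  obtain ⟨N, hN, ω, hω, D, hD, hind⟩ := hk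
  refine ⟨N, hN, fun l => ω (Fin.castLE (by omega) l), fun l => hω _, D, ?_, ?_⟩
  · have h1 : Fin.castLE (by omega : h' + 1 ≤ h + 1) (0 : Fin (h' + 1)) = 0 := rfl
    simp only [h1]
    exact hD
  · exact hind.comp (Fin.castLE hle) (Fin.castLE_injective hle)

theorem kodGe_le {k K : Type} [Field k] [Field K] [Algebra k K] {w j : ℕ}
    {Bd : Place k K → Prop} (hK : Algebra.trdeg k K = w) (h : KodGe k K w Bd j) : j ≤ w := by
  obtain ⟨N, hN, ω, hω, D, hD, hind⟩ := h
  have h2 := hind.lift_cardinalMk_le_trdeg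
  rw [hK] at h2
  simp only [Cardinal.mk_fin, Cardinal.lift_natCast] at h2
  exact_mod_cast h2

section

variable {L Λ F : Type} [Field L] [Algebra ℂ L] [Field Λ] [Field F] [Algebra ℂ Λ] [Algebra ℂ F]
  [Algebra Λ F] [Algebra L F] [IsScalarTower ℂ Λ F] [IsScalarTower ℂ L F]

theorem exists_not_const {n : ℕ} (hL : Algebra.trdeg ℂ L = (n + 1 : ℕ))
    (hΛ : Algebra.trdeg ℂ Λ = n) : ∃ z : L, ∀ c : Λ, algebraMap Λ F c ≠ algebraMap L F z := by
  by_contra hcon
  push Not at hcon
  obtain ⟨g, hg⟩ := exists_hom (algebraMap L F) (algebraMap Λ F) hcon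
  let g' : L →ₐ[ℂ] Λ := { g with
    commutes' := fun c => (algebraMap Λ F).injective (by
      change algebraMap Λ F (g (algebraMap ℂ L c)) = _
      rw [hg, ← IsScalarTower.algebraMap_apply, ← IsScalarTower.algebraMap_apply]) }
  have h1 := trdeg_le_of_injective g' (g' : L →+* Λ).injective
  rw [hL, hΛ] at h1
  have h2 : n + 1 ≤ n := by exact_mod_cast h1
  omega

variable [Algebra.EssFiniteType ℂ L] [IsAlgClosed Λ] [IsFF Λ F]

/-- **A family of curves of genus at most one which covers the total space of a fibration**: either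
the base, or the geometric generic fibre is covered by such curves. -/
theorem fib_or_base {n : ℕ} (hL : Algebra.trdeg ℂ L = (n + 1 : ℕ))
    (hΛ : Algebra.trdeg ℂ Λ = n) (B : IntermediateField ℂ L) {b f : ℕ}
    (hB : Algebra.trdeg ℂ B = b) (hf : Algebra.trdeg B L = f) :
    (∀ t : F, Λ⟮t⟯ = ⊤ → ∀ i j, KodGe (Const B) (GeometricFibre B) f (fun _ => False) i →
      ¬ KodGe ℂ B b (fun _ => False) j) ∧
    (GLO Λ F → KodGe (Const B) (GeometricFibre B) f (fun _ => False) f →
      ¬ KodGe ℂ B b (fun _ => False) b) := by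
  obtain ⟨z0, hz0⟩ := exists_not_const (F := F) hL hΛ
  by_cases hBΛ : ∀ z ∈ B, ∃ c : Λ, algebraMap Λ F c = algebraMap L F z
  · -- the curves are contained in the fibres
    obtain ⟨i, j, hij, hj, hi⟩ := exists_emb B hBΛ
    have hC : IsAlgClosed (Const B) := const_algClosed B
    obtain ⟨htrF, hessF⟩ := geo_data B hf
    have hCtr : Algebra.trdeg ℂ (Const B) = b := const_trdeg B hB
    obtain ⟨e⟩ := exists_iso (Const B) hCtr
    let a1 : Algebra (Const B) Λ := i.toAlgebra
    let a2 : Algebra (GeometricFibre B) F := j.toAlgebra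
    let a3 : Algebra (Const B) F := ((algebraMap Λ F).comp i).toAlgebra
    have s1 : IsScalarTower (Const B) Λ F := IsScalarTower.of_algebraMap_eq fun c => rfl
    have s2 : IsScalarTower (Const B) (GeometricFibre B) F :=
      IsScalarTower.of_algebraMap_eq fun c => (hij c).symm
    have s3 : IsScalarTower ℂ (Const B) Λ := IsScalarTower.of_algebraMap_eq fun c => (hi c).symm
    obtain ⟨N, hN⟩ : ∃ N : ℕ, Algebra.trdeg (Const B) Λ = N := by
      have h1 := trdeg_add_eq ℂ (Const B) (A := Λ)
      have h2 : Algebra.trdeg (Const B) Λ ≤ (n : Cardinal) := by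
        rw [← hΛ, ← h1]
        exact self_le_add_left _ _
      exact Cardinal.lt_aleph0.1 (h2.trans_lt Cardinal.natCast_lt_aleph0)
    have hmv : ∃ z : GeometricFibre B, ∀ c : Λ, algebraMap Λ F c ≠
        algebraMap (GeometricFibre B) F z :=
      ⟨toGeo B z0, fun c hc => hz0 c (hc.trans (hj z0))⟩
    obtain ⟨h1, h2⟩ := not_kod_base (F := F) e htrF hN hmv
    exact ⟨fun t ht i j hi _ => h1 t ht i hi, fun hglo hi _ => h2 hglo hi⟩
  · -- the curves map to curves in the base
    push Not at hBΛ
    obtain ⟨z, hz, hzc⟩ := hBΛ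
    have hess : Algebra.EssFiniteType ℂ B := Pool.Agent.N999.SX.ess_any B
    have s1 : IsScalarTower ℂ B F := inferInstance
    have hmv : ∃ z : B, ∀ c : Λ, algebraMap Λ F c ≠ algebraMap B F z := ⟨⟨z, hz⟩, hzc⟩
    exact ⟨fun t ht i j _ hj => not_kod_of_rational hB hΛ hmv ht hj,
      fun hglo _ hj => not_gt_of_curves hB hΛ hmv hglo hj⟩

end

section

variable {L : Type} [Field L] [Algebra ℂ L] [Algebra.EssFiniteType ℂ L] {n : ℕ}

/-- **Iitaka's inequality for uniruled varieties.** -/
theorem not_uniruled_of_fib (hL : Algebra.trdeg ℂ L = (n + 1 : ℕ)) (B : IntermediateField ℂ L)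
    {b f : ℕ} (hB : Algebra.trdeg ℂ B = b) (hf : Algebra.trdeg B L = f) {i j : ℕ}
    (hF : KodGe (Const B) (GeometricFibre B) f (fun _ => False) i)
    (hBj : KodGe ℂ B b (fun _ => False) j) : ¬ IsUniruled ℂ L (n + 1) := by
  intro hu
  obtain ⟨Λ, F, _, _, _, _, _, _, _, _, hΛ, ⟨t, ht⟩, ⟨φ⟩⟩ := rational_of_uniruled hu
  let _ : Algebra L F := φ.toRingHom.toAlgebra
  have hT : IsScalarTower ℂ L F := IsScalarTower.of_algebraMap_eq fun c => (φ.commutes c).symm
  exact (fib_or_base (F := F) hL hΛ B hB hf).1 t ht i j hF hBj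

/-- **Iitaka's inequality** for all fibrations of a variety which is uniruled or has Kodaira
dimension at least `dim W - 1`, and is of general type or covered by curves of genus at most one. -/
theorem iitaka_abs (hL : Algebra.trdeg ℂ L = (n + 1 : ℕ))
    (h1 : ¬ IsUniruled ℂ L (n + 1) → KodGe ℂ L (n + 1) (fun _ => False) n)
    (h2 : ¬ Cov1 L n → KodGe ℂ L (n + 1) (fun _ => False) (n + 1))
    (B : IntermediateField ℂ L) {b f : ℕ} (hB : Algebra.trdeg ℂ B = b)
    (hf : Algebra.trdeg B L = f) {i j : ℕ}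
    (hF : KodGe (Const B) (GeometricFibre B) f (fun _ => False) i)
    (hBj : KodGe ℂ B b (fun _ => False) j) : KodGe ℂ L (n + 1) (fun _ => False) (i + j) := by
  have hu := not_uniruled_of_fib hL B hB hf hF hBj
  have hdim : b + f = n + 1 := by
    have h3 := trdeg_add_eq ℂ B (A := L)
    rw [hB, hf, hL] at h3
    exact_mod_cast h3
  have hi : i ≤ f := kodGe_le (geo_data B hf).1 hF
  have hj : j ≤ b := kodGe_le hB hBj
  by_cases hn : i + j ≤ n
  · exact kodGe_mono hn (h1 hu)
  · have hij : i + j = n + 1 := by omega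
    have hif : i = f := by omega
    have hjb : j = b := by omega
    rw [hij]
    refine h2 fun hc => ?_
    subst hif
    subst hjb
    obtain ⟨Λ, F, _, _, _, _, _, _, _, _, hΛ, hglo, ⟨φ⟩⟩ := hc
    let _ : Algebra L F := φ.toRingHom.toAlgebra
    have hT : IsScalarTower ℂ L F := IsScalarTower.of_algebraMap_eq fun c => (φ.commutes c).symm
    exact (fib_or_base (F := F) hL hΛ B hB hf).2 hglo hF hBj

end

end Pool.Agent.J4.H18.IT
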